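import Pool.Agent.Q26.TA.TA4

/-!
# Hooley's asymptotic formula for ALL moduli in short windows around the elements of automatic sets, and around any integer
after subtracting few elements of any set

Nothing is used besides Mathlib in the statement. From Mathlib: `DFA ℕ σ`, `M.accepts`: finite automata and the words
accepted by them; `Nat.digits b v`: the digits of `v` in base `b`.
-/

set_option autoImplicit false

namespace Pool.Agent.Results.MP_5d318d_nt.AutomaticModuliWindows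

open Finset

/-- `ψ(x; q, a) = ∑_{n ≤ x, n ≡ a mod q} Λ(n)` for `0 ≤ a < q` -/
noncomputable def psiAP (x : ℝ) (q a : ℕ) : ℝ :=
  ∑ n ∈ (Icc 1 ⌊x⌋₊).filter (fun n => n % q = a), ArithmeticFunction.vonMangoldt n

/-- The variance `G(x,q) = ∑_{a mod q, (a,q)=1} (ψ(x;q,a) - x/φ(q))²`. -/
noncomputable def G (x : ℝ) (q : ℕ) : ℝ :=
  ∑ a ∈ (range q).filter (fun a => Nat.Coprime a q), (psiAP x q a - x / (Nat.totient q : ℝ)) ^ 2

/-- `|G(x,Q) - x log Q| ≤ ε x log Q` for ALL real `x` with `Q ≤ x ≤ Q log ^ κ N`. -/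
def Good (ε : ℝ) (κ N Q : ℕ) : Prop :=
  ∀ x : ℝ, (Q : ℝ) ≤ x → x ≤ Q * Real.log N ^ κ → |G x Q - x * Real.log Q| ≤ ε * (x * Real.log Q)

/-- ALL moduli `Q ≥ N / log ^ κ N` at a distance of at most `log ^ A N` from `y` are good. -/
def GoodWindow (ε : ℝ) (κ A N : ℕ) (y : ℝ) : Prop :=
  ∀ Q : ℕ, |(Q : ℝ) - y| ≤ Real.log N ^ A → (N : ℝ) ≤ Q * Real.log N ^ κ → Good ε κ N Q

open Classical in
/-- The elements `v < N` of the automatic set given by the base `b` and the automaton `M`: the integers whose base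
`b` digits are accepted by `M`. -/
noncomputable def aut {σ : Type} (b : ℕ) (M : DFA ℕ σ) (N : ℕ) : Finset ℕ :=
  (range N).filter fun v => Nat.digits b v ∈ M.accepts

open Classical in
/-- Let `κ` and `A` be given.

(1) Let `b ≥ 2`, and let `M` be any automaton such that the automatic set `aut b M` is not sparse: for every `k` it has more
than `log ^ k N` elements below `N` for infinitely many `N`. Let `a ≠ 0`, `B`, `U` and `0 < ε ≤ 1` be fixed, let `N` be large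
and let `c` be an arbitrary integer with `|c| ≤ B N`. Then for all elements `v < N` of the automatic set, with at most
`#(aut b M N) / log ^ U N` exceptions, ALL moduli `Q ≥ N / log ^ κ N` with `|Q - (c + a v)| ≤ log ^ A N` satisfy
`|G(x,Q) - x log Q| ≤ ε x log Q` for ALL real `x` with `Q ≤ x ≤ Q log ^ κ N`.

(2) For every `l ≥ 2` there is a constant `C = C(l, κ, A)` such that for `0 < ε ≤ 1` and every sufficiently large `N` the
following holds. Let `T` be an arbitrary set of integers which contains an element of every interval `[x, l x]`, `x ≥ 1` (the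
constants do not depend on `T`). Then there is a set `S` of at most `C (log log N) ^ 2` elements of `T` with the sum
`∑ S ≤ N / 2`, such that ALL moduli `Q ≥ N / log ^ κ N` with `|Q - (N - ∑ S)| ≤ log ^ A N` satisfy
`|G(x,Q) - x log Q| ≤ ε x log Q` for ALL real `x` with `Q ≤ x ≤ Q log ^ κ N`. -/
theorem result (κ A : ℕ) :
    (∀ (σ : Type) [Finite σ] (b : ℕ), 2 ≤ b → ∀ M : DFA ℕ σ,
      (∀ k : ℕ, ∃ᶠ N : ℕ in Filter.atTop, Real.log N ^ k < ((aut b M N).card : ℝ)) →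
      ∀ a : ℤ, a ≠ 0 → ∀ (B U : ℕ) (ε : ℝ), 0 < ε → ε ≤ 1 → ∃ N₀ : ℕ, ∀ N : ℕ, N₀ ≤ N → ∀ c : ℤ, |c| ≤ (B : ℤ) * N →
        (((aut b M N).filter fun v : ℕ => ¬ GoodWindow ε κ A N ((c + a * v : ℤ) : ℝ)).card : ℝ) ≤
          ((aut b M N).card : ℝ) / Real.log N ^ U) ∧
    (∀ l : ℕ, 2 ≤ l → ∃ C : ℝ, ∀ ε : ℝ, 0 < ε → ε ≤ 1 → ∃ N₀ : ℕ, ∀ T : Set ℕ,
      (∀ x : ℕ, 1 ≤ x → ∃ t ∈ T, x ≤ t ∧ t ≤ l * x) → ∀ N : ℕ, N₀ ≤ N →
        ∃ S : Finset ℕ, (∀ t ∈ S, t ∈ T) ∧ (S.card : ℝ) ≤ C * Real.log (Real.log N) ^ 2 ∧ 2 * ∑ t ∈ S, t ≤ N ∧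
          GoodWindow ε κ A N ((N : ℝ) - ((∑ t ∈ S, t : ℕ) : ℝ))) := by
  constructor
  · intro σ _ b hb M hS a ha B U ε hε hε1
    obtain ⟨N₀, h⟩ := Pool.Agent.Q26.TA.au_win b hb M hS a ha B κ A U ε hε hε1
    refine ⟨N₀, fun N hN c hc => ?_⟩
    refine le_trans ?_ (h N hN c hc)
    apply Nat.cast_le.2
    apply card_le_card
    intro v hv
    unfold aut at hv
    rw [mem_filter, mem_filter] at hv
    rw [mem_filter]
    refine ⟨hv.1.1, hv.1.2, ?_⟩
    have h1 := hv.2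
    unfold GoodWindow at h1
    push Not at h1
    obtain ⟨Q, h2, h3, h4⟩ := h1
    exact ⟨Q, by rw [Int.cast_natCast]; exact h2, h3, h4⟩
  · intro l hl
    obtain ⟨C, hC⟩ := Pool.Agent.Q26.TA.las_win l κ A hl
    refine ⟨C, fun ε hε hε1 => ?_⟩
    obtain ⟨N₀, h0⟩ := hC ε hε hε1
    refine ⟨N₀, fun T hT N hN => ?_⟩
    obtain ⟨S, s1, s2, s3, s4⟩ := h0 T hT N hN
    exact ⟨S, s1, s2, s3, fun Q hQ _ => s4 Q hQ⟩

end Pool.Agent.Results.MP_5d318d_nt.AutomaticModuliWindows
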