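import Pool.Agent.Q319.DR.Sp
import Pool.Agent.TH935.HM1

/-!
# Hooley's asymptotic formula for the variance, for the moduli at the multiples of almost all real numbers

* For `0 < θ < 1` there is `κ₀ > 0` such that for all real `y ∈ [N ^ (1 - θ), 2 N ^ (1 - θ)]` outside a set of measure
  at most `N ^ (1 - θ - κ₀)` ALL integers `Q` in the windows of radius `log ^ A N` around the multiples `k y`,
  `k ≤ N ^ θ`, satisfy Hooley's formula, with at most `N ^ θ / log ^ U N` exceptional `k`.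
* For almost every real `α > 0` ALL integers `Q` in the windows of radius `log ^ A (b k)` around the numbers `α b k`
  satisfy Hooley's formula, for ALL large `k`; here `b` is an arbitrary sequence of integers with
  `b k ≥ exp (k ^ δ)`, for instance `b k = 2 ^ k`.

From Mathlib: `ArithmeticFunction.vonMangoldt`: the function `Λ`; `Nat.totient`: Euler's function `φ`; `volume`: the
Lebesgue measure; `∀ᵐ α : ℝ`: for almost all real `α`; `∀ᶠ k in atTop`: for all large `k`.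
The formula for almost all moduli is from the starting files (`Pool.Agent.TH935.HM.mod_fam`), as well as the count of the
elements of arbitrary sets of integers in intervals at multiples of real numbers (`Pool.Agent.H438R2.DL`).
-/

set_option autoImplicit false

namespace Pool.Agent.Results.MP_5d318d_nt.ModuliAtRealMultiples

open Finset MeasureTheory Filter

/-- `ψ(X; Q, a) = ∑_{n ≤ X, n ≡ a mod Q} Λ(n)` for `0 ≤ a < Q` -/
noncomputable def psiAP (X : ℝ) (Q a : ℕ) : ℝ :=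
  ∑ n ∈ (Icc 1 ⌊X⌋₊).filter (fun n => n % Q = a), ArithmeticFunction.vonMangoldt n

/-- The variance `G(X,Q) = ∑_{a mod Q, (a,Q)=1} (ψ(X;Q,a) - X/φ(Q))²`. -/
noncomputable def G (X : ℝ) (Q : ℕ) : ℝ :=
  ∑ a ∈ (range Q).filter (fun a => Nat.Coprime a Q), (psiAP X Q a - X / (Nat.totient Q : ℝ)) ^ 2

/-- Hooley's formula for the modulus `Q`: `|G(X,Q) - X log Q| ≤ ε X log Q` for ALL real `X` with
`Q ≤ X ≤ Q log ^ κ Q`. -/
def Hooley (ε : ℝ) (κ Q : ℕ) : Prop :=
  ∀ X : ℝ, (Q : ℝ) ≤ X → X ≤ Q * Real.log Q ^ κ → |G X Q - X * Real.log Q| ≤ ε * (X * Real.log Q)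

open Classical in
/-- The number of the `k` with `1 ≤ k ≤ K` for which not all integers `Q` at a distance of at most `w` from `k y` have
the property `P`. -/
noncomputable def exceptions (K : ℝ) (y w : ℝ) (P : ℕ → Prop) : ℕ :=
  ((Icc 1 ⌊K⌋₊).filter (fun k : ℕ => ∃ Q : ℕ, |(Q : ℝ) - k * y| ≤ w ∧ ¬ P Q)).card

lemma sparse (ε : ℝ) (hε : 0 < ε) (hε1 : ε ≤ 1) (κ : ℕ) : Pool.Agent.Q319.DR.Sparse (fun _ Q => ¬ Hooley ε κ Q) := by
  classical
  intro B U
  obtain ⟨N₀, h0⟩ := Pool.Agent.TH935.HM.mod_fam 1 0 (κ + U + 1) (U + 1) ε hε hε1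
  obtain ⟨N₁, h1⟩ := Pool.Agent.Q319.DR.scale B U
  refine ⟨N₀ + N₁, fun N hN S hS hSb => ?_⟩
  obtain ⟨g1, g2, g3, g4⟩ := h1 N (by omega)
  obtain ⟨M, hM⟩ : ∃ M : ℕ, M = (B + 1) * N := ⟨_, rfl⟩
  rw [← hM] at g3 g4
  have hNM : N ≤ M := by rw [hM]; exact Nat.le_mul_of_pos_left N (by omega)
  have hSM : S ⊆ Icc 1 M := hS.trans (Icc_subset_Icc le_rfl (by rw [hM]; exact Nat.mul_le_mul_right _ (by omega)))
  set L := Real.log (M : ℝ) with hL
  have hL1 : 1 ≤ L := g2.trans g3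
  have hL0 : 0 < L := by linarith
  have hM0 : (0 : ℝ) < M := by exact_mod_cast (by omega : 0 < M)
  -- the small elements
  have hs : ((S.filter (fun q : ℕ => (q : ℝ) * L ^ (κ + U + 1) < M)).card : ℝ) ≤ M / L ^ (U + 1) := by
    have h2 : S.filter (fun q : ℕ => (q : ℝ) * L ^ (κ + U + 1) < M) ⊆ Icc 1 ⌊(M : ℝ) / L ^ (U + 1)⌋₊ := by
      intro q hq
      rw [mem_filter] at hq
      rw [mem_Icc]
      refine ⟨(mem_Icc.1 (hSM hq.1)).1, Nat.le_floor ?_⟩
      rw [le_div_iff₀ (by positivity)]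
      refine le_trans ?_ hq.2.le
      apply mul_le_mul_of_nonneg_left _ (Nat.cast_nonneg _)
      exact pow_le_pow_right₀ hL1 (by omega)
    have h3 := card_le_card h2
    rw [Nat.card_Icc, Nat.add_sub_cancel] at h3
    calc ((S.filter (fun q : ℕ => (q : ℝ) * L ^ (κ + U + 1) < M)).card : ℝ) ≤ (⌊(M : ℝ) / L ^ (U + 1)⌋₊ : ℕ) := by
          exact_mod_cast h3
      _ ≤ _ := Nat.floor_le (by positivity)
  -- the large elements
  have hb : ((S.filter (fun q : ℕ => ¬ (q : ℝ) * L ^ (κ + U + 1) < M)).card : ℝ) ≤ M / L ^ (U + 1) := by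
    refine h0 M (by omega) M (fun m => (m : ℤ)) (fun m hm => ?_) ?_ _ ((filter_subset _ _).trans hSM) ?_
    · rw [mem_Icc] at hm
      rw [abs_of_nonneg (Int.natCast_nonneg m)]
      exact_mod_cast hm.2
    · rw [Pool.Agent.Q319.DR.energy_id]
      apply le_of_eq
      ring
    · intro q hq
      rw [mem_filter, not_lt] at hq
      obtain ⟨hq1, hq2⟩ := hq
      have hq3 := mem_Icc.1 (hSM hq1)
      have hq4 := hSb q hq1
      unfold Hooley at hq4
      push Not at hq4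
      obtain ⟨X, h5, h6, h7⟩ := hq4
      have hq0 : (0 : ℝ) < q := by exact_mod_cast (by omega : 0 < q)
      refine ⟨by exact_mod_cast hq3.1, ?_, X, ?_, ?_, ?_⟩
      · rw [Int.toNat_natCast]; exact hq2
      · rw [Int.toNat_natCast]; exact h5
      · rw [Int.toNat_natCast]
        refine h6.trans ?_
        apply mul_le_mul_of_nonneg_left _ hq0.le
        calc Real.log q ^ κ ≤ L ^ κ := pow_le_pow_left₀ (Real.log_natCast_nonneg _)
              (Real.log_le_log hq0 (by exact_mod_cast hq3.2)) _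
          _ ≤ L ^ (κ + U + 1) := pow_le_pow_right₀ hL1 (by omega)
      · rw [Int.toNat_natCast]
        exact not_le.2 h7
  have hcard : (S.card : ℝ) = ((S.filter (fun q : ℕ => (q : ℝ) * L ^ (κ + U + 1) < M)).card : ℝ) +
      ((S.filter (fun q : ℕ => ¬ (q : ℝ) * L ^ (κ + U + 1) < M)).card : ℝ) := by
    exact_mod_cast (card_filter_add_card_filter_not _).symm
  have h9 : 0 ≤ (M : ℝ) / L ^ (U + 1) := by positivity
  have h8 : 3 * (M : ℝ) / L ^ (U + 1) = 3 * ((M : ℝ) / L ^ (U + 1)) := by ring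
  rw [h8] at g4
  linarith

/-- * Let `0 < θ < 1`. There is `κ₀ > 0` such that for all `A`, `κ`, `U`, `0 < ε ≤ 1` and all large `N` there is a set
  `E` of real numbers of measure at most `N ^ (1 - θ - κ₀)` with the following property. Let `y` be a real number with
  `N ^ (1 - θ) ≤ y ≤ 2 N ^ (1 - θ)` which does not belong to `E`. For all `k ≤ N ^ θ`, with at most
  `N ^ θ / log ^ U N` exceptions, ALL integers `Q` with `|Q - k y| ≤ log ^ A N` satisfy
  `|G(X,Q) - X log Q| ≤ ε X log Q` for ALL real `X` with `Q ≤ X ≤ Q log ^ κ Q`.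
* Let `b` be a sequence of natural numbers with `b k ≥ exp (k ^ δ)` for all large `k`, where `δ > 0`. For almost every
  real number `α > 0` the following holds for all `ε > 0` and all `A`, `κ`: for all large `k` ALL integers `Q` with
  `|Q - α b k| ≤ log ^ A (b k)` satisfy `|G(X,Q) - X log Q| ≤ ε X log Q` for ALL real `X` with
  `Q ≤ X ≤ Q log ^ κ Q`. -/
theorem result :
    (∀ θ : ℝ, 0 < θ → θ < 1 → ∃ κ₀ : ℝ, 0 < κ₀ ∧ ∀ (A κ U : ℕ) (ε : ℝ), 0 < ε → ε ≤ 1 → ∃ N₀ : ℕ, ∀ N : ℕ, N₀ ≤ N →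
      ∃ E : Set ℝ, MeasurableSet E ∧ volume E ≤ ENNReal.ofReal ((N : ℝ) ^ (1 - θ - κ₀)) ∧
        ∀ y : ℝ, (N : ℝ) ^ (1 - θ) ≤ y → y ≤ 2 * (N : ℝ) ^ (1 - θ) → y ∉ E →
          (exceptions ((N : ℝ) ^ θ) y (Real.log N ^ A) (Hooley ε κ) : ℝ) ≤ (N : ℝ) ^ θ / Real.log N ^ U) ∧
    (∀ (b : ℕ → ℕ) (δ : ℝ), 0 < δ → (∀ᶠ k : ℕ in atTop, Real.exp ((k : ℝ) ^ δ) ≤ b k) →
      ∀ᵐ α : ℝ, 0 < α → ∀ (A κ : ℕ) (ε : ℝ), 0 < ε → ∀ᶠ k : ℕ in atTop,
        ∀ Q : ℕ, |(Q : ℝ) - α * b k| ≤ Real.log (b k) ^ A → Hooley ε κ Q) := by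
  classical
  constructor
  · intro θ hθ hθ1
    obtain ⟨κ₀, hκ₀, h⟩ := Pool.Agent.Q319.DR.mult_few θ hθ hθ1
    refine ⟨κ₀, hκ₀, fun A κ U ε hε hε1 => ?_⟩
    exact h _ (sparse ε hε hε1 κ) A U
  · intro b δ hδ hb
    have h1 : ∀ᵐ α : ℝ, ∀ A κ n : ℕ, 0 < α → ∀ᶠ k : ℕ in atTop,
        ∀ Q : ℕ, |(Q : ℝ) - α * b k| ≤ Real.log (b k) ^ A → ¬ ¬ Hooley (1 / ((n : ℝ) + 1)) κ Q := by
      rw [ae_all_iff]
      intro A
      rw [ae_all_iff]
      intro κ
      rw [ae_all_iff]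
      intro n
      have hn : (0 : ℝ) < (n : ℝ) + 1 := by positivity
      exact Pool.Agent.Q319.DR.lac_all _ (sparse (1 / ((n : ℝ) + 1)) (by positivity) (by
        rw [div_le_one hn]; linarith) κ) A b δ hδ hb
    have hbt : Tendsto (fun k => ((b k : ℕ) : ℝ)) atTop atTop := by
      have h1 : Tendsto (fun k : ℕ => Real.exp ((k : ℝ) ^ δ)) atTop atTop :=
        Real.tendsto_exp_atTop.comp ((tendsto_rpow_atTop hδ).comp tendsto_natCast_atTop_atTop)
      exact tendsto_atTop_mono' _ hb h1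
    filter_upwards [h1] with α hα hα0 A κ ε hε
    obtain ⟨n, hn⟩ := exists_nat_one_div_lt hε
    filter_upwards [hα A κ n hα0] with k hk Q hQ X hX1 hX2
    refine (not_not.1 (hk Q hQ) X hX1 hX2).trans ?_
    rcases Nat.eq_zero_or_pos Q with h0 | h0
    · subst h0
      have hX0 : X * Real.log ((0 : ℕ) : ℝ) = 0 := by simp
      rw [hX0]
      simp
    · have hX0 : 0 ≤ X := le_trans (Nat.cast_nonneg _) hX1
      exact mul_le_mul_of_nonneg_right hn.le (mul_nonneg hX0 (Real.log_natCast_nonneg _))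

end Pool.Agent.Results.MP_5d318d_nt.ModuliAtRealMultiples
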