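import Pool.Agent.Q44.LogS
import Pool.Agent.Results.MP_5d318d_nt.ModuliAtRealMultiples

/-!
# Hooley's asymptotic formula for the variance, for the moduli given by continued fractions

For almost every real number `α`, all integers `(u, v) ≠ (0, 0)`, all `ε > 0` and all `κ`, Hooley's formula
`|G(X,Q) - X log Q| ≤ ε X log Q` holds for ALL real `X` with `Q ≤ X ≤ Q log ^ κ Q`, for the moduli `Q = |u p + v q|`,
for all but finitely many convergents `p / q` of the continued fraction of `α`; in particular for the denominators and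
the numerators. More generally, in every dimension `d`, for almost every `α` in `ℝ ^ d` it holds for the absolute value
`Q` of every linear form in the denominator `x₀` and the numerators `x₁, …, x_d` of the simultaneous rational
approximations of `α` with `|α_j - x_j / x₀| ≤ (1 + log x₀) ^ T x₀ ^ (-(1 + 1/d))`, for all but finitely many of them
(by Dirichlet's theorem every `α` has infinitely many of them).
-/

set_option autoImplicit false

namespace Pool.Agent.Results.MP_5d318d_nt.GoodApproximations

open Finset Pool.Agent.Q44.CF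

/-- `ψ(X; Q, a) = ∑_{n ≤ X, n ≡ a mod Q} Λ(n)` for `0 ≤ a < Q` -/
noncomputable def psiAP (X : ℝ) (Q a : ℕ) : ℝ :=
  ∑ n ∈ (Icc 1 ⌊X⌋₊).filter (fun n => n % Q = a), ArithmeticFunction.vonMangoldt n

/-- The variance `G(X,Q) = ∑_{a mod Q, (a,Q)=1} (ψ(X;Q,a) - X/φ(Q))²`. -/
noncomputable def G (X : ℝ) (Q : ℕ) : ℝ :=
  ∑ a ∈ (range Q).filter (fun a => Nat.Coprime a Q), (psiAP X Q a - X / (Nat.totient Q : ℝ)) ^ 2

/-- Hooley's formula for the modulus `Q`: `|G(X,Q) - X log Q| ≤ ε X log Q` for ALL real `X` with
`Q ≤ X ≤ Q log ^ κ Q`. -/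
def Hooley (ε : ℝ) (κ Q : ℕ) : Prop :=
  ∀ X : ℝ, (Q : ℝ) ≤ X → X ≤ Q * Real.log Q ^ κ → |G X Q - X * Real.log Q| ≤ ε * (X * Real.log Q)

/-- **Theorem.** In the sense of `AtDirichletApproximations` (linear forms in the denominators and the numerators of the
convergents of the continued fractions of almost all real numbers, and of the good simultaneous rational approximations
of almost all points of `ℝ ^ d`) the moduli satisfy Hooley's formula for ALL real `X` with `Q ≤ X ≤ Q log ^ κ Q`. -/
theorem result (ε : ℝ) (hε : 0 < ε) (κ : ℕ) : AtDirichletApproximations (Hooley ε κ) := by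
  have h1 := Pool.Agent.Results.MP_5d318d_nt.ModuliAtRealMultiples.sparse (min ε 1) (lt_min hε one_pos)
    (min_le_right _ _) κ
  refine atLog_of (logFew_of_sparse h1 0) fun Q hQ => ?_
  left
  intro h2
  apply hQ
  intro X hX1 hX2
  refine (h2 X hX1 hX2).trans ?_
  rcases Nat.eq_zero_or_pos Q with h0 | h0
  · subst h0
    have hX0 : X * Real.log ((0 : ℕ) : ℝ) = 0 := by simp
    rw [hX0]
    simp
  · apply mul_le_mul_of_nonneg_right (min_le_left _ _)
    exact mul_nonneg (by linarith [(Nat.cast_nonneg Q : (0 : ℝ) ≤ Q)]) (Real.log_natCast_nonneg Q)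

end Pool.Agent.Results.MP_5d318d_nt.GoodApproximations
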